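import Pool.Agent.Helper8.Sey.Basic

/-!
# Packet HALF of project SEY (MP_b6b2d3_co)
-/

namespace Pool.Agent.Helper48.Sey

open Finset
open Pool.Agent.Helper41.Girth4 (Pr)
open Pool.Agent.Helper8.Sey

/-- ranks inside the parts -/
theorem exists_rank (V : Type) [Fintype V] (part : V → ℕ) : ∃ r : V → ℕ,
    (∀ u v, part u = part v → r u = r v → u = v) ∧
    (∀ m j, j < Nat.card {v // part v = m} → ∃ v, part v = m ∧ r v = j) ∧
    (∀ v, r v < Fintype.card V) := by
  classical
  let e : ∀ m, {v // part v = m} ≃ Fin (Nat.card {v // part v = m}) := fun m => Finite.equivFin _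
  have tr : ∀ v m (hv : part v = m), (e m ⟨v, hv⟩ : ℕ) = (e (part v) ⟨v, rfl⟩ : ℕ) := by
    intro v m hv
    subst hv
    rfl
  refine ⟨fun v => (e (part v) ⟨v, rfl⟩ : ℕ), ?_, ?_, ?_⟩
  · intro u v h1 h2
    have h3 : (e (part v) ⟨u, h1⟩ : ℕ) = (e (part v) ⟨v, rfl⟩ : ℕ) := by
      rw [tr u (part v) h1]
      exact h2
    have := (e (part v)).injective (Fin.ext h3)
    exact congrArg Subtype.val this
  · intro m j hj
    refine ⟨((e m).symm ⟨j, hj⟩).1, ((e m).symm ⟨j, hj⟩).2, ?_⟩
    show (e (part ((e m).symm ⟨j, hj⟩).1) ⟨((e m).symm ⟨j, hj⟩).1, rfl⟩ : ℕ) = j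
    rw [← tr _ m ((e m).symm ⟨j, hj⟩).2]
    simp
  · intro v
    refine lt_of_lt_of_le (e (part v) ⟨v, rfl⟩).2 ?_
    rw [Nat.card_eq_fintype_card]
    exact Fintype.card_subtype_le _

/-- sign -/
def sg (x y : Bool) : ℤ := if x = y then 1 else -1

theorem sg_flip : ∀ x y b : Bool, sg (xor (!x) y) b = - sg (xor x y) b := by decide

theorem sg_sq : ∀ (B : Finset Bool) (x b : Bool),
    (∑ β ∈ B, sg (xor x β) b) ^ 2 ≤ (B.card : ℤ) := by decide

theorem mgf {I V : Type} [Fintype I] [DecidableEq I] (N : Finset V) (key : V → I)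
    (bit : V → Bool) (hinj : ∀ u ∈ N, ∀ v ∈ N, key u = key v → bit u = bit v → u = v) (b : Bool)
    (θ : ℝ) :
    (∑ ω : I → Bool, Real.exp (θ * (∑ u ∈ N, sg (xor (ω (key u)) (bit u)) b : ℤ))) ≤
      (Fintype.card (I → Bool) : ℝ) * Real.exp (θ ^ 2 * N.card / 2) := by
  classical
  let c : I → Bool → ℤ := fun i x => ∑ u ∈ N.filter (fun u => key u = i), sg (xor x (bit u)) b
  have h1 : ∀ ω : I → Bool, (∑ u ∈ N, sg (xor (ω (key u)) (bit u)) b) = ∑ i, c i (ω i) := by
    intro ω
    rw [← Finset.sum_fiberwise N key]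
    refine Finset.sum_congr rfl (fun i _ => Finset.sum_congr rfl (fun u hu => ?_))
    rw [(mem_filter.1 hu).2]
  have h2 : ∀ ω : I → Bool, Real.exp (θ * (∑ u ∈ N, sg (xor (ω (key u)) (bit u)) b : ℤ)) =
      ∏ i, Real.exp (θ * (c i (ω i) : ℤ)) := by
    intro ω
    rw [h1 ω, ← Real.exp_sum, Int.cast_sum, Finset.mul_sum]
  rw [Finset.sum_congr rfl (fun ω _ => h2 ω)]
  have h3 : (∑ ω : I → Bool, ∏ i, Real.exp (θ * (c i (ω i) : ℤ))) =
      ∏ i, ∑ x : Bool, Real.exp (θ * (c i x : ℤ)) := by
    rw [Finset.prod_univ_sum, Fintype.piFinset_univ]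
  rw [h3]
  have h4 : ∀ i, (∑ x : Bool, Real.exp (θ * (c i x : ℤ))) ≤
      2 * Real.exp (θ ^ 2 * ((N.filter (fun u => key u = i)).card : ℝ) / 2) := by
    intro i
    have e1 : c i false = - c i true := by
      show (∑ u ∈ N.filter (fun u => key u = i), sg (xor false (bit u)) b) =
        - ∑ u ∈ N.filter (fun u => key u = i), sg (xor true (bit u)) b
      rw [← Finset.sum_neg_distrib]
      exact Finset.sum_congr rfl (fun u _ => sg_flip true (bit u) b)
    have e2 : (c i true) ^ 2 ≤ ((N.filter (fun u => key u = i)).card : ℤ) := by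
      have inj : Set.InjOn bit (N.filter (fun u => key u = i) : Finset V) := by
        intro u hu v hv h
        have hu' := mem_filter.1 (Finset.mem_coe.1 hu)
        have hv' := mem_filter.1 (Finset.mem_coe.1 hv)
        exact hinj u hu'.1 v hv'.1 (hu'.2.trans hv'.2.symm) h
      have := sg_sq ((N.filter (fun u => key u = i)).image bit) true b
      rw [Finset.sum_image inj, Finset.card_image_of_injOn inj] at this
      exact this
    rw [Fintype.sum_bool, e1]
    have e3 : Real.exp (θ * (c i true : ℤ)) + Real.exp (θ * ((-c i true : ℤ) : ℝ)) =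
        2 * Real.cosh (θ * (c i true : ℤ)) := by
      rw [Real.cosh_eq]
      push_cast
      rw [mul_neg]
      ring
    rw [e3]
    refine mul_le_mul_of_nonneg_left ((Real.cosh_le_exp_half_sq _).trans ?_) (by norm_num)
    apply Real.exp_le_exp.2
    have e4 : ((c i true : ℤ) : ℝ) ^ 2 ≤ ((N.filter (fun u => key u = i)).card : ℝ) := by
      exact_mod_cast e2
    rw [mul_pow]
    have := mul_le_mul_of_nonneg_left e4 (sq_nonneg θ)
    linarith
  calc ∏ i, ∑ x : Bool, Real.exp (θ * (c i x : ℤ))
      ≤ ∏ i, (2 * Real.exp (θ ^ 2 * ((N.filter (fun u => key u = i)).card : ℝ) / 2)) :=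
        Finset.prod_le_prod (fun i _ => Finset.sum_nonneg (fun x _ => (Real.exp_pos _).le))
          (fun i _ => h4 i)
    _ = (Fintype.card (I → Bool) : ℝ) * Real.exp (θ ^ 2 * N.card / 2) := by
        rw [Finset.prod_mul_distrib, ← Real.exp_sum, Finset.prod_const, Finset.card_univ,
          Fintype.card_fun, Fintype.card_bool]
        push_cast
        congr 2
        rw [← Finset.sum_div, ← Finset.mul_sum]
        congr 2
        have := Finset.card_eq_sum_card_fiberwise (f := key) (s := N) (t := univ)
          (fun u _ => by simp)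
        rw [this]
        push_cast
        rfl

/-- the tail bound -/
theorem tail {I V : Type} [Fintype I] [DecidableEq I] (N : Finset V) (key : V → I)
    (bit : V → Bool) (hinj : ∀ u ∈ N, ∀ v ∈ N, key u = key v → bit u = bit v → u = v) (b : Bool)
    (D D' : ℕ) (hN : N.card ≤ D) (h1 : 1 ≤ D) (h2 : D ≤ 2 * D') :
    Pr (fun ω : I → Bool => D' < (N.filter (fun u => xor (ω (key u)) (bit u) = b)).card) ≤
      Real.exp (-(2 * ((D' : ℝ) - D / 2) ^ 2 / D)) := by
  classical
  have hD : (0 : ℝ) < D := by exact_mod_cast h1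
  set lam : ℝ := (D' : ℝ) - D / 2 with hlam
  have hlam0 : 0 ≤ lam := by
    have : (D : ℝ) ≤ 2 * D' := by exact_mod_cast h2
    rw [hlam]
    linarith
  set θ : ℝ := 2 * lam / D with hθ
  have hθ0 : 0 ≤ θ := by positivity
  rw [Pool.Agent.Helper41.Girth4.Pr_eq_sum]
  have hc : (0 : ℝ) < Fintype.card (I → Bool) := by exact_mod_cast Fintype.card_pos
  rw [div_le_iff₀ hc]
  have step : ∀ ω : I → Bool,
      (if D' < (N.filter (fun u => xor (ω (key u)) (bit u) = b)).card then (1 : ℝ) else 0) ≤
      Real.exp (-(2 * θ * lam)) *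
        Real.exp (θ * (∑ u ∈ N, sg (xor (ω (key u)) (bit u)) b : ℤ)) := by
    intro ω
    split_ifs with h
    · rw [← Real.exp_add]
      apply Real.one_le_exp
      have e1 : (∑ u ∈ N, sg (xor (ω (key u)) (bit u)) b) =
          2 * ((N.filter (fun u => xor (ω (key u)) (bit u) = b)).card : ℤ) - N.card := by
        have : ∀ u ∈ N, sg (xor (ω (key u)) (bit u)) b =
            2 * (if xor (ω (key u)) (bit u) = b then 1 else 0) - 1 := by
          intro u _
          unfold sg
          split_ifs <;> norm_num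
        rw [Finset.sum_congr rfl this, Finset.sum_sub_distrib, ← Finset.mul_sum,
          Finset.sum_boole, Finset.sum_const]
        simp
      have e2 : 2 * lam ≤ ((∑ u ∈ N, sg (xor (ω (key u)) (bit u)) b : ℤ) : ℝ) := by
        rw [e1]
        push_cast
        have a1 : (D' : ℝ) ≤ ((N.filter (fun u => xor (ω (key u)) (bit u) = b)).card : ℝ) := by
          exact_mod_cast h.le
        have a2 : (N.card : ℝ) ≤ D := by exact_mod_cast hN
        rw [hlam]
        linarith
      have := mul_le_mul_of_nonneg_left e2 hθ0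
      linarith
    · positivity
  refine (Finset.sum_le_sum (fun ω _ => step ω)).trans ?_
  rw [← Finset.mul_sum]
  refine (mul_le_mul_of_nonneg_left (mgf N key bit hinj b θ) (Real.exp_pos _).le).trans ?_
  rw [mul_left_comm, ← Real.exp_add, mul_comm]
  refine mul_le_mul_of_nonneg_right ?_ hc.le
  apply Real.exp_le_exp.2
  have a2 : (N.card : ℝ) ≤ D := by exact_mod_cast hN
  have e3 : θ ^ 2 * N.card / 2 ≤ θ ^ 2 * D / 2 := by
    have := mul_le_mul_of_nonneg_left a2 (sq_nonneg θ)
    linarith
  have e4 : -(2 * θ * lam) + θ ^ 2 * D / 2 = -(2 * lam ^ 2 / D) := by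
    rw [hθ]
    field_simp
    ring
  linarith


/-- sizes of the new parts -/
theorem sizes {V I : Type} [Fintype V] (part r : V → ℕ)
    (hr : ∀ m j, j < Nat.card {v // part v = m} → ∃ v, part v = m ∧ r v = j)
    (key : V → I) (hk : ∀ u v, part u = part v → r u / 2 = r v / 2 → key u = key v)
    (ω : I → Bool) (m : ℕ) (b : Bool) :
    Nat.card {v // part v = m} / 2 ≤
      Nat.card {v // part v = m ∧ xor (ω (key v)) (decide (r v % 2 = 1)) = b} := by
  classical
  have hex : ∀ k : Fin (Nat.card {v // part v = m} / 2), ∃ v : V, part v = m ∧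
      xor (ω (key v)) (decide (r v % 2 = 1)) = b ∧ r v / 2 = k := by
    intro k
    have hk2 := k.2
    obtain ⟨v0, a0, b0⟩ := hr m (2 * k) (by omega)
    obtain ⟨v1, a1, b1⟩ := hr m (2 * k + 1) (by omega)
    have hkey : key v0 = key v1 := hk v0 v1 (a0.trans a1.symm) (by omega)
    by_cases h : xor (ω (key v0)) (decide (r v0 % 2 = 1)) = b
    · exact ⟨v0, a0, h, by omega⟩
    · refine ⟨v1, a1, ?_, by omega⟩
      have c0 : decide (r v0 % 2 = 1) = false := by
        rw [decide_eq_false_iff_not]
        omega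
      have c1 : decide (r v1 % 2 = 1) = true := by
        rw [decide_eq_true_iff]
        omega
      rw [c0, hkey] at h
      rw [c1]
      revert h
      generalize ω (key v1) = z
      cases z <;> cases b <;> simp
  choose f hf1 hf2 hf3 using hex
  have hinj : Function.Injective (fun k : Fin (Nat.card {v // part v = m} / 2) =>
      (⟨f k, hf1 k, hf2 k⟩ :
        {v // part v = m ∧ xor (ω (key v)) (decide (r v % 2 = 1)) = b})) := by
    intro k k' h
    have h' : f k = f k' := congrArg Subtype.val h
    apply Fin.ext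
    rw [← hf3 k, ← hf3 k', h']
  have := Nat.card_le_card_of_injective _ hinj
  rwa [Nat.card_eq_fintype_card, Fintype.card_fin] at this

/-- the number of dependencies -/
theorem degree {V I : Type} [Fintype V] (H : SimpleGraph V) (K D : ℕ) (part : V → ℕ)
    (hB : NearBd H K part D) (key : V → I) (bit : V → Bool)
    (hk : ∀ u v, key u = key v → part u = part v)
    (hinj : ∀ u v, key u = key v → bit u = bit v → u = v) (v : V) (m : Fin K) :
    Nat.card {j : V × Fin K // ¬ Disjoint
      {i | near K (part v) m ∧ ∃ u, H.Adj v u ∧ part u = m ∧ key u = i}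
      {i | near K (part j.1) j.2 ∧ ∃ u, H.Adj j.1 u ∧ part u = j.2 ∧ key u = i}} ≤
      6 * D ^ 2 := by
  classical
  rw [Nat.card_eq_fintype_card, Fintype.card_subtype]
  by_cases hn : near K (part v) m
  · let N : Finset V := univ.filter (fun u => H.Adj v u ∧ part u = m)
    let Wf : V → Finset V := fun u => univ.filter (fun w => key w = key u)
    let Mf : V → Finset V := fun w => univ.filter (fun x => H.Adj w x ∧ near K (part w) (part x))
    have hN : N.card ≤ D := by
      have := hB.2 v m m.2 hn
      rwa [Nat.card_eq_fintype_card, Fintype.card_subtype] at this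
    have hW : ∀ u, (Wf u).card ≤ 2 := by
      intro u
      have : (Wf u).card ≤ (univ : Finset Bool).card := by
        refine Finset.card_le_card_of_injOn bit (fun _ _ => by simp) ?_
        intro w hw w' hw' h
        have a := (mem_filter.1 (Finset.mem_coe.1 hw)).2
        have a' := (mem_filter.1 (Finset.mem_coe.1 hw')).2
        exact hinj w w' (a.trans a'.symm) h
      simpa using this
    have hM : ∀ w, (Mf w).card ≤ 3 * D := by
      intro w
      obtain ⟨S, hS1, hS2⟩ := near_three K (part w)
      let S' := S.filter (fun p => p < K ∧ near K (part w) p)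
      have hS' : S'.card ≤ 3 := (Finset.card_filter_le _ _).trans hS1
      have hsub : Mf w ⊆ S'.biUnion (fun p => univ.filter (fun x => H.Adj w x ∧ part x = p)) := by
        intro x hx
        have hx' := (mem_filter.1 hx).2
        rw [mem_biUnion]
        refine ⟨part x, ?_, ?_⟩
        · rw [mem_filter]
          exact ⟨hS2 _ (hB.1 x) hx'.2, hB.1 x, hx'.2⟩
        · rw [mem_filter]
          exact ⟨mem_univ _, hx'.1, rfl⟩
      refine (Finset.card_le_card hsub).trans ((Finset.card_biUnion_le_card_mul _ _ D ?_).trans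
        (Nat.mul_le_mul_right _ hS'))
      intro p hp
      have hp' := (mem_filter.1 hp).2
      have := hB.2 w p hp'.1 hp'.2
      rwa [Nat.card_eq_fintype_card, Fintype.card_subtype] at this
    have hsub : (univ.filter (fun j : V × Fin K => ¬ Disjoint
      {i | near K (part v) m ∧ ∃ u, H.Adj v u ∧ part u = m ∧ key u = i}
      {i | near K (part j.1) j.2 ∧ ∃ u, H.Adj j.1 u ∧ part u = j.2 ∧ key u = i})) ⊆
        N.biUnion (fun u => (Wf u).biUnion (fun w => (Mf w).image (fun x => (x, m)))) := by
      rintro ⟨v', m'⟩ hj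
      have hj' := (mem_filter.1 hj).2
      rw [Set.not_disjoint_iff] at hj'
      obtain ⟨i, ⟨-, u, hu1, hu2, hu3⟩, ⟨hn', u', hu1', hu2', hu3'⟩⟩ := hj'
      simp only at hn' hu1' hu2'
      have hkk : key u' = key u := hu3'.trans hu3.symm
      have hp : part u' = part u := hk _ _ hkk
      have hmm : m' = m := by
        apply Fin.ext
        rw [← hu2', ← hu2, hp]
      subst hmm
      rw [mem_biUnion]
      refine ⟨u, ?_, ?_⟩
      · rw [mem_filter]
        exact ⟨mem_univ _, hu1, hu2⟩
      rw [mem_biUnion]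
      refine ⟨u', ?_, ?_⟩
      · rw [mem_filter]
        exact ⟨mem_univ _, hkk⟩
      rw [mem_image]
      refine ⟨v', ?_, rfl⟩
      rw [mem_filter]
      refine ⟨mem_univ _, hu1'.symm, ?_⟩
      rw [hu2']
      exact near_symm hn'
    refine (Finset.card_le_card hsub).trans ?_
    refine (Finset.card_biUnion_le_card_mul _ _ (2 * (3 * D)) ?_).trans ?_
    · intro u _
      refine (Finset.card_biUnion_le_card_mul _ _ (3 * D) ?_).trans
        (Nat.mul_le_mul_right _ (hW u))
      intro w _
      exact Finset.card_image_le.trans (hM w)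
    · calc N.card * (2 * (3 * D)) ≤ D * (2 * (3 * D)) := Nat.mul_le_mul_right _ hN
        _ = 6 * D ^ 2 := by ring
  · rw [Finset.card_eq_zero.2]
    · exact Nat.zero_le _
    · rw [Finset.filter_eq_empty_iff]
      intro j _ hj
      rw [Set.not_disjoint_iff] at hj
      obtain ⟨i, ⟨h, -⟩, -⟩ := hj
      exact hn h

/-- packet HALF -/
theorem goalHALF : GoalHALF := by
  classical
  intro V _ H K part D D' a h1 h2 hB ha hexp
  obtain ⟨r, r1, r2, r3⟩ := exists_rank V part
  let key : V → Fin K × Fin (Fintype.card V) := fun v =>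
    (⟨part v, hB.1 v⟩, ⟨r v / 2, lt_of_le_of_lt (Nat.div_le_self _ _) (r3 v)⟩)
  let bit : V → Bool := fun v => decide (r v % 2 = 1)
  have hk1 : ∀ u v, key u = key v → part u = part v ∧ r u / 2 = r v / 2 := by
    intro u v h
    have e1 := congrArg (fun z => (z.1 : ℕ)) h
    have e2 := congrArg (fun z => (z.2 : ℕ)) h
    exact ⟨e1, e2⟩
  have hk2 : ∀ u v, part u = part v → r u / 2 = r v / 2 → key u = key v := by
    intro u v e1 e2
    exact Prod.ext (Fin.ext e1) (Fin.ext e2)
  have hinj : ∀ u v, key u = key v → bit u = bit v → u = v := by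
    intro u v h h'
    obtain ⟨e1, e2⟩ := hk1 u v h
    apply r1 u v e1
    have e3 : (r u % 2 = 1) ↔ (r v % 2 = 1) := by
      have := h'
      simp only [bit, decide_eq_decide] at this
      exact this
    omega
  let S : V × Fin K → Set (Fin K × Fin (Fintype.card V)) := fun j =>
    {i | near K (part j.1) j.2 ∧ ∃ u, H.Adj j.1 u ∧ part u = j.2 ∧ key u = i}
  let A : V × Fin K → (Fin K × Fin (Fintype.card V) → Bool) → Prop := fun j ω =>
    near K (part j.1) j.2 ∧ ∃ b : Bool,
      D' < ((univ.filter (fun u => H.Adj j.1 u ∧ part u = j.2)).filter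
        (fun u => xor (ω (key u)) (bit u) = b)).card
  have hL := @Pool.Agent.Helper51.Girth4.stmtLLL.{0} (Fin K × Fin (Fintype.card V)) (V × Fin K)
    Bool _ _ _ _ S A ?_ (2 * Real.exp (-(2 * ((D' : ℝ) - D / 2) ^ 2 / D))) (6 * D ^ 2) ?_ ?_ ?_ ?_
  rotate_left
  · rintro ⟨v, m⟩ ω ω' hω ⟨hn, b, hb⟩
    refine ⟨hn, b, ?_⟩
    have : (univ.filter (fun u => H.Adj v u ∧ part u = m)).filter
        (fun u => xor (ω' (key u)) (bit u) = b) =
      (univ.filter (fun u => H.Adj v u ∧ part u = m)).filter
        (fun u => xor (ω (key u)) (bit u) = b) := by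
      refine Finset.filter_congr (fun u hu => ?_)
      have hu' := (mem_filter.1 hu).2
      rw [hω (key u) ⟨hn, u, hu'.1, hu'.2, rfl⟩]
    show D' < ((univ.filter (fun u => H.Adj v u ∧ part u = m)).filter
        (fun u => xor (ω' (key u)) (bit u) = b)).card
    rw [this]
    exact hb
  · rintro ⟨v, m⟩
    by_cases hn : near K (part v) m
    · have hN : (univ.filter (fun u => H.Adj v u ∧ part u = m)).card ≤ D := by
        have := hB.2 v m m.2 hn
        rwa [Nat.card_eq_fintype_card, Fintype.card_subtype] at this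
      have t := fun b => tail (univ.filter (fun u => H.Adj v u ∧ part u = m)) key bit
        (fun u _ w _ => hinj u w) b D D' hN h1 h2
      have e1 : Pr (A (v, m)) ≤
          Pr (fun ω : Fin K × Fin (Fintype.card V) → Bool =>
            (D' < ((univ.filter (fun u => H.Adj v u ∧ part u = m)).filter
              (fun u => xor (ω (key u)) (bit u) = true)).card) ∨
            (D' < ((univ.filter (fun u => H.Adj v u ∧ part u = m)).filter
              (fun u => xor (ω (key u)) (bit u) = false)).card)) := by
        apply Pool.Agent.Helper41.Girth4.Pr_mono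
        rintro ω ⟨-, b, hb⟩
        cases b
        · exact Or.inr hb
        · exact Or.inl hb
      refine e1.trans ((Pool.Agent.Helper41.Girth4.Pr_or_le _ _).trans ?_)
      have := add_le_add (t true) (t false)
      linarith
    · have : Pr (A (v, m)) ≤ Pr (fun _ : Fin K × Fin (Fintype.card V) → Bool => False) := by
        apply Pool.Agent.Helper41.Girth4.Pr_mono
        rintro ω ⟨h, -⟩
        exact hn h
      rw [Pool.Agent.Helper41.Girth4.Pr_false] at this
      exact this.trans (by positivity)
  · have : 1 ≤ D ^ 2 := Nat.one_le_pow _ _ h1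
    omega
  · rintro ⟨v, m⟩
    exact degree H K D part hB key bit (fun u w h => (hk1 u w h).1) hinj v m
  · push_cast
    linarith
  obtain ⟨ω, hω⟩ := hL
  have hside : ∀ v b, (2 * part v + (if xor (ω (key v)) (bit v) then 1 else 0)) % 2 =
      (if b then 1 else 0) → xor (ω (key v)) (bit v) = b := by
    intro v b h
    cases hx : xor (ω (key v)) (bit v) <;> cases b <;> simp [hx] at h ⊢ <;> omega
  refine ⟨fun v => 2 * part v + (if xor (ω (key v)) (bit v) then 1 else 0), ?_, ⟨?_, ?_⟩, ?_⟩
  · intro v
    by_cases h : xor (ω (key v)) (bit v)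
    · right
      simp [h]
    · left
      simp [h]
  · intro v
    have := hB.1 v
    simp only
    split_ifs <;> omega
  · intro v m hm hn
    have hv : (2 * part v + (if xor (ω (key v)) (bit v) then 1 else 0)) / 2 = part v := by
      split_ifs <;> omega
    change near (2 * K) (2 * part v + (if xor (ω (key v)) (bit v) then 1 else 0)) m at hn
    have hn2 := near_half (K := K) (by have := hB.1 v; split_ifs <;> omega) hm hn
    rw [hv] at hn2
    have hm2 : m / 2 < K := by omega
    have hA := hω (v, ⟨m / 2, hm2⟩)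
    have hA2 : ∀ b : Bool, ((univ.filter (fun u => H.Adj v u ∧ part u = m / 2)).filter
        (fun u => xor (ω (key u)) (bit u) = b)).card ≤ D' := by
      intro b
      by_contra hc
      exact hA ⟨hn2, b, by simpa using hc⟩
    rw [Nat.card_eq_fintype_card, Fintype.card_subtype]
    refine (Finset.card_le_card ?_).trans (hA2 (decide (m % 2 = 1)))
    intro u hu
    have hu' := (mem_filter.1 hu).2
    change H.Adj v u ∧ 2 * part u + (if xor (ω (key u)) (bit u) then 1 else 0) = m at hu'
    rw [mem_filter, mem_filter]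
    refine ⟨⟨mem_univ _, hu'.1, ?_⟩, ?_⟩
    · have := hu'.2
      split_ifs at this <;> omega
    · apply hside
      rw [hu'.2]
      rcases Nat.mod_two_eq_zero_or_one m with h | h <;> simp [h]
  · intro m hm
    have hm2 : m / 2 < K := by omega
    refine (Nat.div_le_div_right (ha (m / 2) hm2)).trans ?_
    refine (sizes part r r2 key hk2 ω (m / 2) (decide (m % 2 = 1))).trans ?_
    refine Nat.card_le_card_of_injective (fun v => ⟨v.1, ?_⟩) ?_
    · have hv := v.2
      show 2 * part v.1 + (if xor (ω (key v.1)) (bit v.1) then 1 else 0) = m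
      have h3 : xor (ω (key v.1)) (bit v.1) = decide (m % 2 = 1) := hv.2
      rw [h3, hv.1]
      rcases Nat.mod_two_eq_zero_or_one m with h | h <;> simp [h] <;> omega
    · intro x y h
      apply Subtype.ext
      simpa using h

end Pool.Agent.Helper48.Sey
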